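import Pool.Agent.Lib.RzW.Main

/-!
The criterion with its complements.
-/

set_option autoImplicit false

namespace RzW

open RzT (InvMeas Folner exists_meas ext_folner)

theorem L_eq {G : Type} [Group G] (K : Subgroup G) (n : ℕ) :
    RzV.L K n = K.lowerCentralSeries n := by
  induction n with
  | zero => rfl
  | succ n ih => rw [RzV.L, ih, Subgroup.lowerCentralSeries_succ]

theorem D_eq {G : Type} [Group G] (K : Subgroup G) (n : ℕ) :
    RzV.D K n = (derivedSeries K n).map K.subtype := by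
  induction n with
  | zero =>
    rw [RzV.D, derivedSeries_zero, ← MonoidHom.range_eq_map, Subgroup.range_subtype]
  | succ n ih => rw [RzV.D, ih, derivedSeries_succ, Subgroup.map_commutator]

theorem no_free {G : Type} [Group G] (K : Subgroup G) [K.Normal] (hK : Group.IsNilpotent K)
    (hper : ∀ w : G, ∃ k : ℕ, 0 < k ∧ w ^ k ∈ K) :
    ¬ ∃ f : Fin 2 → G, Function.Injective ⇑(FreeSemigroup.lift f) := by
  rintro ⟨f, hf⟩
  obtain ⟨c, hc⟩ := (Subgroup.isNilpotent_iff_lowerCentralSeries K).mp hK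
  obtain ⟨p, hp, hpN⟩ := hper (f 0)
  obtain ⟨q, hq, hqN⟩ := hper (f 1)
  obtain ⟨p, rfl⟩ := Nat.exists_eq_succ_of_ne_zero hp.ne'
  obtain ⟨q, rfl⟩ := Nat.exists_eq_succ_of_ne_zero hq.ne'
  obtain ⟨-, -, h3⟩ := RzV.XY_val K f p q hpN hqN c
  rw [L_eq, hc, Subgroup.mem_bot, mul_inv_eq_one] at h3
  have h4 := hf h3
  have h6 := RzV.XY_head p q c
  rw [h4] at h6
  exact absurd (h6.1.symm.trans h6.2) (by decide)

theorem amen {G : Type} [Group G] (K : Subgroup G) [K.Normal] (hK : Group.IsSolvable K)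
    (hF : Folner (G ⧸ K)) : ∃ m : Set G → ENNReal, m Set.univ = 1 ∧ InvMeas m := by
  obtain ⟨n, hn⟩ := (Group.isSolvable_def K).mp hK
  have hD : RzV.D K n = ⊥ := by rw [D_eq, hn, Subgroup.map_bot]
  have := RzV.D_normal K n
  have h1 : Folner (G ⧸ RzV.D K n) := RzV.folner_D K hF n
  have h2 : Folner G := by
    apply ext_folner (QuotientGroup.mk' (RzV.D K n)) (QuotientGroup.mk'_surjective _) _ h1
    intro a ha b hb
    rw [QuotientGroup.ker_mk', hD, Subgroup.mem_bot] at ha hb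
    rw [ha, hb]
  exact exists_meas h2

theorem full {Γ A : Type} [Group Γ] [Group A] (K : Subgroup Γ) [K.Normal] (θ : Γ → A)
    (hθ : ∀ x ∈ K, ∀ y ∈ K, θ (x * y) = θ x * θ y) (c : Γ) (hc : c ∈ K)
    (hfin : {y : Γ ⧸ K | ∃ g : Γ, (QuotientGroup.mk g : Γ ⧸ K) = y ∧ θ (g⁻¹ * c * g) ≠ 1}.Finite)
    (hne : ∃ g : Γ, θ (g⁻¹ * c * g) ≠ 1) :
    ((∃ S : Finset (Γ ⧸ K), Infinite (Subgroup.closure (S : Set (Γ ⧸ K)))) →
      ∃ B : Set Γ, B.Nonempty ∧ ¬ ∃ μ : Set Γ → ENNReal, μ B = 1 ∧ InvMeas μ) ∧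
    ((∃ w : Γ, ∀ k : ℕ, 0 < k → w ^ k ∉ K) →
      ∃ f : Fin 2 → Γ, Function.Injective ⇑(FreeSemigroup.lift f)) ∧
    (Group.IsNilpotent K → (∀ w : Γ, ∃ k : ℕ, 0 < k ∧ w ^ k ∈ K) →
      ¬ ∃ f : Fin 2 → Γ, Function.Injective ⇑(FreeSemigroup.lift f)) ∧
    (Group.IsSolvable K → Folner (Γ ⧸ K) →
      ∃ m : Set Γ → ENNReal, m Set.univ = 1 ∧ InvMeas m) :=
  ⟨fun ⟨S, hS⟩ => not_supra_lf K θ hθ c hc hfin hne S hS,
    fun ⟨w, hw⟩ => free_of_not_periodic K θ hθ c hc hfin hne w hw,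
    fun hK hper => no_free K hK hper, fun hK hF => amen K hK hF⟩

end RzW
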