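import Pool.Agent.Lib.RzW.Wr

/-!
A criterion: a character of a normal subgroup with finite support on an orbit.
-/

set_option autoImplicit false

namespace RzW

open RzT (node pr InvMeas exists_ray not_supra pr_const free_of_inj Folner exists_meas)
open RzG (pr_map)

variable {Γ A : Type} [Group Γ] [Group A] (K : Subgroup Γ) [K.Normal] (θ : Γ → A)

theorem exists_D (hθ : ∀ x ∈ K, ∀ y ∈ K, θ (x * y) = θ x * θ y) (c : Γ) (hc : c ∈ K)
    (hfin : {y : Γ ⧸ K | ∃ g : Γ, (QuotientGroup.mk g : Γ ⧸ K) = y ∧ θ (g⁻¹ * c * g) ≠ 1}.Finite)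
    (hne : ∃ g : Γ, θ (g⁻¹ * c * g) ≠ 1) :
    ∃ (D : Set (Γ ⧸ K)), D.Finite ∧ ∀ t : ℕ → Γ,
      (∀ i j : ℕ, i < j → (pr (fun k => (QuotientGroup.mk (t k) : Γ ⧸ K)) i)⁻¹ *
        pr (fun k => (QuotientGroup.mk (t k) : Γ ⧸ K)) j ∉ D) →
      Function.Injective (node t c) := by
  obtain ⟨Ψ, hr, hl⟩ := exists_coind K θ hθ
  have hθ1 : θ 1 = 1 := by
    have h := hθ 1 K.one_mem 1 K.one_mem
    rw [mul_one] at h
    exact (mul_eq_left.mp h.symm)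
  have hinv : ∀ k ∈ K, θ k⁻¹ * θ k = 1 := by
    intro k hk
    rw [← hθ _ (K.inv_mem hk) _ hk, inv_mul_cancel, hθ1]
  have hconj : ∀ x ∈ K, ∀ k ∈ K, θ x ≠ 1 → θ (k⁻¹ * x * k) ≠ 1 := by
    intro x hx k hk hx1 h
    rw [hθ _ (K.mul_mem (K.inv_mem hk) hx) _ hk, hθ _ (K.inv_mem hk) _ hx] at h
    apply hx1
    have h2 := hinv k hk
    have h3 : θ k⁻¹ = (θ k)⁻¹ := mul_eq_one_iff_eq_inv.mp h2
    rw [h3, mul_eq_one_iff_eq_inv, inv_mul_eq_iff_eq_mul, mul_inv_cancel] at h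
    exact h
  obtain ⟨g0, hg0⟩ := hne
  set y0 : Γ ⧸ K := QuotientGroup.mk g0 with hy0
  have hy0l : (Ψ c).left y0 ≠ 1 := by
    rw [hl c hc]
    have hk : g0⁻¹ * y0.out ∈ K := by
      rw [← QuotientGroup.eq]
      exact (QuotientGroup.out_eq' y0).symm
    have hx : g0⁻¹ * c * g0 ∈ K := by
      have := ‹K.Normal›.conj_mem c hc g0⁻¹
      rwa [inv_inv] at this
    have h := hconj _ hx _ hk hg0
    have h2 : (g0⁻¹ * y0.out)⁻¹ * (g0⁻¹ * c * g0) * (g0⁻¹ * y0.out) = y0.out⁻¹ * c * y0.out := by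
      group
    rwa [h2] at h
  have hS : {y : Γ ⧸ K | (Ψ c).left y ≠ 1}.Finite := by
    apply hfin.subset
    intro y hy
    have hy' : (Ψ c).left y ≠ 1 := hy
    rw [hl c hc] at hy'
    exact ⟨y.out, QuotientGroup.out_eq' y, hy'⟩
  refine ⟨((fun y => y * y0⁻¹) '' {y | (Ψ c).left y ≠ 1}) ∪
      ((fun y => (y * y0⁻¹)⁻¹) '' {y | (Ψ c).left y ≠ 1}),
    (hS.image _).union (hS.image _), ?_⟩
  intro t ht
  have hr' : (fun n => (Ψ (t n)).right) = fun k => (QuotientGroup.mk (t k) : Γ ⧸ K) := by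
    funext k
    exact hr _
  apply node_inj Ψ t c y0 _ _ hy0l _
  · rw [hr']
    exact ht
  · rw [hr]
    exact (QuotientGroup.eq_one_iff _).mpr hc
  · intro y hy
    exact ⟨Or.inl ⟨y, hy, rfl⟩, Or.inr ⟨y, hy, rfl⟩⟩

theorem not_supra_lf (hθ : ∀ x ∈ K, ∀ y ∈ K, θ (x * y) = θ x * θ y) (c : Γ) (hc : c ∈ K)
    (hfin : {y : Γ ⧸ K | ∃ g : Γ, (QuotientGroup.mk g : Γ ⧸ K) = y ∧ θ (g⁻¹ * c * g) ≠ 1}.Finite)
    (hne : ∃ g : Γ, θ (g⁻¹ * c * g) ≠ 1) (S : Finset (Γ ⧸ K))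
    (hS : Infinite (Subgroup.closure (S : Set (Γ ⧸ K)))) :
    ∃ B : Set Γ, B.Nonempty ∧ ¬ ∃ μ : Set Γ → ENNReal, μ B = 1 ∧ InvMeas μ := by
  classical
  obtain ⟨D, hDfin, hinj⟩ := exists_D K θ hθ c hc hfin hne
  let H0 : Subgroup (Γ ⧸ K) := Subgroup.closure (S : Set (Γ ⧸ K))
  have hD0 : ((fun x : H0 => (x : Γ ⧸ K)) ⁻¹' D).Finite :=
    hDfin.preimage Subtype.val_injective.injOn
  obtain ⟨T, t, hT, hD⟩ := exists_ray (H := H0)
    (S.preimage Subtype.val Subtype.val_injective.injOn)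
    (by
      rw [Finset.coe_preimage]
      exact Subgroup.closure_closure_coe_preimage)
    hD0.toFinset
  let σ : Γ ⧸ K → Γ := fun y => y.out
  have hσ : ∀ y, (QuotientGroup.mk (σ y) : Γ ⧸ K) = y := fun y => QuotientGroup.out_eq' y
  have hpr : (fun k => (QuotientGroup.mk (σ (t k : Γ ⧸ K)) : Γ ⧸ K)) =
      fun k => H0.subtype (t k) := by
    funext k
    exact hσ _
  refine not_supra (T.image fun x : H0 => σ (x : Γ ⧸ K))
    (fun k => σ (t k : Γ ⧸ K))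
    (fun k => Finset.mem_image_of_mem (fun x : H0 => σ (x : Γ ⧸ K)) (hT k)) c ?_
  apply hinj
  intro i j hij
  rw [hpr, pr_map, pr_map, ← map_inv, ← map_mul]
  have := hD i j hij
  rwa [Set.Finite.mem_toFinset] at this

theorem free_of_not_periodic (hθ : ∀ x ∈ K, ∀ y ∈ K, θ (x * y) = θ x * θ y) (c : Γ) (hc : c ∈ K)
    (hfin : {y : Γ ⧸ K | ∃ g : Γ, (QuotientGroup.mk g : Γ ⧸ K) = y ∧ θ (g⁻¹ * c * g) ≠ 1}.Finite)
    (hne : ∃ g : Γ, θ (g⁻¹ * c * g) ≠ 1) (w : Γ) (hw : ∀ k : ℕ, 0 < k → w ^ k ∉ K) :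
    ∃ f : Fin 2 → Γ, Function.Injective ⇑(FreeSemigroup.lift f) := by
  obtain ⟨D, hDfin, hinj⟩ := exists_D K θ hθ c hc hfin hne
  let h : Γ ⧸ K := QuotientGroup.mk w
  have hord : ¬ IsOfFinOrder h := by
    rw [isOfFinOrder_iff_pow_eq_one]
    rintro ⟨k, hk, hk1⟩
    apply hw k hk
    rw [← QuotientGroup.eq_one_iff, QuotientGroup.mk_pow]
    exact hk1
  have hpinj : Function.Injective fun k : ℕ => h ^ k := injective_pow_iff_not_isOfFinOrder.mpr hord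
  have hfin : {k : ℕ | h ^ k ∈ D}.Finite := hDfin.preimage (hpinj.injOn)
  obtain ⟨L0, hL0⟩ := hfin.bddAbove
  have hL : ∀ m : ℕ, 0 < m → h ^ ((L0 + 1) * m) ∉ D := by
    intro m hm hmem
    have h1 : (L0 + 1) * m ≤ L0 := hL0 hmem
    have h2 : L0 + 1 ≤ (L0 + 1) * m := Nat.le_mul_of_pos_right _ hm
    omega
  apply free_of_inj (w ^ (L0 + 1)) c
  apply hinj
  intro i j hij
  have hh : (QuotientGroup.mk (w ^ (L0 + 1)) : Γ ⧸ K) = h ^ (L0 + 1) := QuotientGroup.mk_pow _ _ _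
  rw [hh, pr_const, pr_const]
  have h3 : ((h ^ (L0 + 1)) ^ i)⁻¹ * (h ^ (L0 + 1)) ^ j = h ^ ((L0 + 1) * (j - i)) := by
    obtain ⟨m, rfl⟩ := Nat.exists_eq_add_of_lt hij
    have : i + m + 1 - i = m + 1 := by omega
    rw [this, pow_mul, show i + m + 1 = i + (m + 1) by omega,
      pow_add (h ^ (L0 + 1)) i (m + 1), inv_mul_cancel_left]
  rw [h3]
  exact hL (j - i) (by omega)

end RzW
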