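import Pool.Agent.Lib.RzV.Nil

/-!
Homomorphisms to a wreath product and binary trees of distinct products.
-/

set_option autoImplicit false

namespace RzW

open RzT (node pr)

variable {A G H : Type} [Group A] [Group G] [Group H]

theorem node_r (Ψ : G →* A ≀ᵣ H) (t : ℕ → G) (c : G) (hc : (Ψ c).right = 1) (l : List Bool) :
    (Ψ (node t c l)).right = pr (fun n => (Ψ (t n)).right) l.length := by
  induction l with
  | nil => simp [node, pr]
  | cons b l ih =>
    have hb : (Ψ (if b then c else 1)).right = 1 := by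
      cases b <;> simp [hc]
    simp only [node, map_mul, RegularWreathProduct.mul_right, ih, hb, mul_one, List.length_cons, pr]

theorem node_inj (Ψ : G →* A ≀ᵣ H) (t : ℕ → G) (c : G) (y0 : H) (D : Set H)
    (hc : (Ψ c).right = 1) (hc1 : (Ψ c).left y0 ≠ 1)
    (hcD : ∀ y, (Ψ c).left y ≠ 1 → y * y0⁻¹ ∈ D ∧ (y * y0⁻¹)⁻¹ ∈ D)
    (hD : ∀ i j : ℕ, i < j → (pr (fun n => (Ψ (t n)).right) i)⁻¹ *
      pr (fun n => (Ψ (t n)).right) j ∉ D) :
    Function.Injective (node t c) := by
  set P := pr (fun n => (Ψ (t n)).right) with hP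
  have hD' : ∀ i j : ℕ, i ≠ j → (Ψ c).left ((P i)⁻¹ * (P j * y0)) = 1 := by
    intro i j hij
    by_contra hne
    have h1 := hcD _ hne
    have h2 : (P i)⁻¹ * (P j * y0) * y0⁻¹ = (P i)⁻¹ * P j := by
      rw [mul_assoc, mul_assoc, mul_inv_cancel, mul_one]
    rw [h2] at h1
    rcases lt_or_gt_of_ne hij with h | h
    · exact hD i j h h1.1
    · apply hD j i h
      have := h1.2
      rwa [mul_inv_rev, inv_inv] at this
  have hPinj : Function.Injective P := by
    intro i j hij
    by_contra hne
    have h1 := hD' i j hne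
    rw [hij, inv_mul_cancel_left] at h1
    exact hc1 h1
  have step : ∀ (b : Bool) (l : List Bool) (y : H), (Ψ (node t c (b :: l))).left y =
      (Ψ (node t c l)).left y * (Ψ (t l.length)).left ((P l.length)⁻¹ * y) *
        (if b then (Ψ c).left ((P (l.length + 1))⁻¹ * y) else 1) := by
    intro b l y
    have h1 : (Ψ (node t c l)).right = P l.length := node_r Ψ t c hc l
    have h2 : (Ψ (node t c l * t l.length)).right = P (l.length + 1) := by
      rw [map_mul, RegularWreathProduct.mul_right, h1, hP, pr]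
    rw [node, map_mul, RegularWreathProduct.mul_left, h2, map_mul, RegularWreathProduct.mul_left,
      h1]
    cases b
    · simp
    · simp
  have key : ∀ (l l' : List Bool), l.length = l'.length →
      (∀ j < l.length, (Ψ (node t c l)).left (P (j + 1) * y0) =
        (Ψ (node t c l')).left (P (j + 1) * y0)) → l = l' := by
    intro l
    induction l with
    | nil =>
      intro l' hl _
      have : l'.length = 0 := by simpa using hl.symm
      exact (List.length_eq_zero_iff.mp this).symm
    | cons b l ih =>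
      intro l' hl hf
      cases l' with
      | nil => simp at hl
      | cons b' l' =>
        have hl2 : l.length = l'.length := by simpa using hl
        have h1 : l = l' := by
          apply ih l' hl2
          intro j hj
          have h2 := hf j (by simp; omega)
          rw [step, step, ← hl2] at h2
          have h3 : (Ψ c).left ((P (l.length + 1))⁻¹ * (P (j + 1) * y0)) = 1 :=
            hD' _ _ (by omega)
          simp only [h3, ite_self, mul_one] at h2
          exact mul_right_cancel h2
        subst h1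
        have h2 := hf l.length (by simp)
        rw [step, step] at h2
        have h3 := mul_left_cancel h2
        rw [inv_mul_cancel_left] at h3
        cases b <;> cases b' <;> simp_all
  intro l l' hll
  have hlen : l.length = l'.length := by
    apply hPinj
    rw [hP, ← node_r Ψ t c hc l, ← node_r Ψ t c hc l', hll]
  exact key l l' hlen (fun j _ => by rw [hll])

/-- a homomorphism on a normal subgroup gives a homomorphism to the wreath product -/
theorem exists_coind {Γ : Type} [Group Γ] (K : Subgroup Γ) [K.Normal] (θ : Γ → A)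
    (hθ : ∀ x ∈ K, ∀ y ∈ K, θ (x * y) = θ x * θ y) :
    ∃ Ψ : Γ →* A ≀ᵣ (Γ ⧸ K), (∀ g, (Ψ g).right = QuotientGroup.mk g) ∧
      ∀ c ∈ K, ∀ y : Γ ⧸ K, (Ψ c).left y = θ (y.out⁻¹ * c * y.out) := by
  have hout : ∀ y : Γ ⧸ K, (QuotientGroup.mk y.out : Γ ⧸ K) = y := fun y => QuotientGroup.out_eq' y
  have hmem : ∀ (g : Γ) (y : Γ ⧸ K), y.out⁻¹ * g * ((QuotientGroup.mk g)⁻¹ * y).out ∈ K := by
    intro g y
    rw [← QuotientGroup.eq_one_iff, QuotientGroup.mk_mul, QuotientGroup.mk_mul,
      QuotientGroup.mk_inv, hout, hout]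
    group
  refine ⟨MonoidHom.mk' (fun g => ⟨fun y => θ (y.out⁻¹ * g * ((QuotientGroup.mk g)⁻¹ * y).out),
    QuotientGroup.mk g⟩) ?_, fun g => rfl, ?_⟩
  · intro g h
    ext y
    · show θ (y.out⁻¹ * (g * h) * ((QuotientGroup.mk (g * h))⁻¹ * y).out) =
        θ (y.out⁻¹ * g * ((QuotientGroup.mk g)⁻¹ * y).out) *
          θ (((QuotientGroup.mk g)⁻¹ * y : Γ ⧸ K).out⁻¹ * h *
            ((QuotientGroup.mk h)⁻¹ * ((QuotientGroup.mk g)⁻¹ * y)).out)
      rw [← hθ _ (hmem g y) _ (hmem h _)]
      congr 1
      have h1 : ((QuotientGroup.mk (g * h))⁻¹ * y : Γ ⧸ K) =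
          (QuotientGroup.mk h)⁻¹ * ((QuotientGroup.mk g)⁻¹ * y) := by
        rw [QuotientGroup.mk_mul, mul_inv_rev, mul_assoc]
      rw [h1]
      group
    · rfl
  · intro c hc y
    show θ (y.out⁻¹ * c * ((QuotientGroup.mk c)⁻¹ * y).out) = _
    have h1 : (QuotientGroup.mk c : Γ ⧸ K) = 1 := (QuotientGroup.eq_one_iff c).mpr hc
    rw [h1, inv_one, one_mul]

end RzW
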